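import Mathlib

/-!
# Markoff-type level sets modulo small primes without a generic orbit

For `(p, k) = (3, 0), (5, 0), (5, 4), (7, 0), (7, 1), (11, 1)` every triple over `ZMod p` at level `k`
lies in one of the exceptional orbits.
-/

set_option autoImplicit false

namespace Pool.Agent.Results.MP_c86b5e_nt.SmallPrimes

/-- Triples over the field with `p` elements. -/
abbrev Tr (p : ℕ) : Type := ZMod p × ZMod p × ZMod p

/-- The level `x ^ 2 + y ^ 2 + z ^ 2 - x y z - 2` of the triple `(x, y, z)`. -/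
def level {p : ℕ} (t : Tr p) : ZMod p :=
  t.1 ^ 2 + t.2.1 ^ 2 + t.2.2 ^ 2 - t.1 * t.2.1 * t.2.2 - 2

/-- The permutation of the first two coordinates. -/
def swap12 (p : ℕ) : Equiv.Perm (Tr p) where
  toFun t := (t.2.1, t.1, t.2.2)
  invFun t := (t.2.1, t.1, t.2.2)
  left_inv _ := rfl
  right_inv _ := rfl

/-- The permutation of the last two coordinates. -/
def swap23 (p : ℕ) : Equiv.Perm (Tr p) where
  toFun t := (t.1, t.2.2, t.2.1)
  invFun t := (t.1, t.2.2, t.2.1)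
  left_inv _ := rfl
  right_inv _ := rfl

/-- The Vieta involution `(x, y, z) ↦ (x, y, x y - z)`. -/
def vieta (p : ℕ) : Equiv.Perm (Tr p) where
  toFun t := (t.1, t.2.1, t.1 * t.2.1 - t.2.2)
  invFun t := (t.1, t.2.1, t.1 * t.2.1 - t.2.2)
  left_inv t := by simp
  right_inv t := by simp

/-- The group `Γ` generated by the coordinate permutations and the Vieta involution. -/
def Gam (p : ℕ) : Subgroup (Equiv.Perm (Tr p)) :=
  Subgroup.closure {swap12 p, swap23 p, vieta p}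

/-- The orbit of the triple `t` under `Γ`. -/
def orb {p : ℕ} (t : Tr p) : Set (Tr p) := {s | ∃ g ∈ Gam p, s = g t}

/-- The triples whose orbits are the exceptional ones: `(0, 0, 0)`, `(a, 0, 0)` with `a ≠ 0`,
`(1, 1, 0)`, `(√2, 1, 0)`, `(φ₊, φ₋, 0)`, `(φ₊, 1, 0)`, `(φ₋, 1, 0)`. -/
def Special {p : ℕ} (t : Tr p) : Prop :=
  t = (0, 0, 0) ∨ (∃ a, a ≠ 0 ∧ t = (a, 0, 0)) ∨ t = (1, 1, 0) ∨
    (∃ r, r ^ 2 = 2 ∧ t = (r, 1, 0)) ∨
    ∃ r f f', r ^ 2 = 5 ∧ 2 * f = 1 + r ∧ 2 * f' = 1 - r ∧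
      (t = (f, f', 0) ∨ t = (f, 1, 0) ∨ t = (f', 1, 0))

/-- The union `𝓔_k` of the exceptional orbits contained in the level `k`. -/
def Exc {p : ℕ} (k : ZMod p) : Set (Tr p) := {s | level s = k ∧ ∃ t, Special t ∧ s ∈ orb t}

/-- The level set `M_k`. -/
def Lev {p : ℕ} (k : ZMod p) : Set (Tr p) := {s | level s = k}

/-- The assertion of the problem for the prime `p` and the level `k`: the complement of `𝓔_k` in the
level set is a single orbit. -/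
def SingleOrbit {p : ℕ} (k : ZMod p) : Prop := ∃ t, Lev k \ Exc k = orb t

/-- The generators. -/
def mv (p : ℕ) : Fin 3 → Equiv.Perm (Tr p) := ![swap12 p, swap23 p, vieta p]

/-- Apply a word in the generators. -/
def run {p : ℕ} : List (Fin 3) → Tr p → Tr p
  | [], t => t
  | m :: w, t => run w (mv p m t)

/-- The words. -/
def wds : List (List (Fin 3)) :=
  [[], [0], [1], [2], [0, 1], [0, 2], [1, 0], [1, 2], [2, 1], [0, 1, 0], [0, 1, 2], [0, 2, 1],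
   [1, 2, 1], [2, 1, 2], [0, 1, 2, 1], [0, 2, 1, 2], [1, 0, 2, 1], [2, 1, 2, 1], [0, 1, 0, 2, 1],
   [0, 2, 1, 2, 1], [1, 0, 2, 1, 2], [1, 2, 1, 2, 1], [2, 1, 0, 2, 1], [0, 1, 2, 1, 2, 1],
   [0, 2, 1, 0, 2, 1], [1, 0, 2, 1, 2, 1], [2, 1, 2, 1, 2, 1], [0, 1, 0, 2, 1, 2, 1],
   [0, 2, 1, 2, 1, 2, 1], [1, 0, 2, 1, 0, 2, 1], [2, 1, 0, 2, 1, 2, 1], [0, 2, 1, 0, 2, 1, 2, 1],
   [1, 0, 2, 1, 2, 1, 2, 1], [1, 2, 1, 0, 2, 1, 2, 1], [2, 1, 0, 2, 1, 0, 2, 1],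
   [0, 1, 2, 1, 0, 2, 1, 2, 1], [1, 0, 2, 1, 0, 2, 1, 2, 1], [1, 2, 1, 0, 2, 1, 0, 2, 1],
   [0, 1, 0, 2, 1, 0, 2, 1, 2, 1], [0, 1, 2, 1, 0, 2, 1, 0, 2, 1]]

lemma mv_mem (p : ℕ) (m : Fin 3) : mv p m ∈ Gam p := by
  apply Subgroup.subset_closure
  fin_cases m <;> simp [mv]

lemma run_eq {p : ℕ} (w : List (Fin 3)) : ∀ t : Tr p, ∃ g ∈ Gam p, run w t = g t := by
  induction w with
  | nil => exact fun t => ⟨1, one_mem _, rfl⟩
  | cons m w ih =>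
    intro t
    obtain ⟨g, hg, h⟩ := ih (mv p m t)
    exact ⟨g * mv p m, mul_mem hg (mv_mem p m), h⟩

lemma exc_of {p : ℕ} {k : ZMod p} (seeds : List (Tr p)) (hs : ∀ t ∈ seeds, Special t)
    (h : ∀ x y z : ZMod p, level (x, y, z) = k → ∃ w ∈ wds, run w (x, y, z) ∈ seeds) :
    Lev k ⊆ Exc k := by
  rintro ⟨x, y, z⟩ hk
  obtain ⟨w, _, hw⟩ := h x y z hk
  obtain ⟨g, hg, hgt⟩ := run_eq w ((x, y, z) : Tr p)
  refine ⟨hk, _, hs _ hw, g⁻¹, inv_mem hg, ?_⟩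
  rw [hgt]
  simp

lemma c30 : Lev (0 : ZMod 3) ⊆ Exc 0 :=
  exc_of [(1, 1, 0)] (by simp [Special]) (by decide +kernel)

lemma c50 : Lev (0 : ZMod 5) ⊆ Exc 0 :=
  exc_of [(1, 1, 0)] (by simp [Special]) (by decide +kernel)

lemma sp_a {p : ℕ} (a : ZMod p) (h : a ≠ 0) : Special ((a, 0, 0) : Tr p) := Or.inr (Or.inl ⟨a, h, rfl⟩)

lemma sp_r {p : ℕ} (r : ZMod p) (h : r ^ 2 = 2) : Special ((r, 1, 0) : Tr p) :=
  Or.inr (Or.inr (Or.inr (Or.inl ⟨r, h, rfl⟩)))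

lemma sp_f {p : ℕ} (r f f' : ZMod p) (h : r ^ 2 = 5) (h1 : 2 * f = 1 + r) (h2 : 2 * f' = 1 - r) :
    Special ((f, f', 0) : Tr p) :=
  Or.inr (Or.inr (Or.inr (Or.inr ⟨r, f, f', h, h1, h2, Or.inl rfl⟩)))

lemma c54 : Lev (4 : ZMod 5) ⊆ Exc 4 := by
  refine exc_of [(1, 0, 0), (4, 0, 0)] ?_ (by decide +kernel)
  intro t ht
  simp only [List.mem_cons, List.not_mem_nil, or_false] at ht
  rcases ht with rfl | rfl
  · exact sp_a _ (by decide)
  · exact sp_a _ (by decide)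

lemma c70 : Lev (0 : ZMod 7) ⊆ Exc 0 := by
  refine exc_of [(1, 1, 0), (3, 0, 0), (4, 0, 0)] ?_ (by decide +kernel)
  intro t ht
  simp only [List.mem_cons, List.not_mem_nil, or_false] at ht
  rcases ht with rfl | rfl | rfl
  · exact Or.inr (Or.inr (Or.inl rfl))
  · exact sp_a _ (by decide)
  · exact sp_a _ (by decide)

lemma c71 : Lev (1 : ZMod 7) ⊆ Exc 1 := by
  refine exc_of [(3, 1, 0), (4, 1, 0)] ?_ (by decide +kernel)
  intro t ht
  simp only [List.mem_cons, List.not_mem_nil, or_false] at ht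
  rcases ht with rfl | rfl
  · exact sp_r _ (by decide)
  · exact sp_r _ (by decide)

lemma c111 : Lev (1 : ZMod 11) ⊆ Exc 1 := by
  refine exc_of [(4, 8, 0), (5, 0, 0), (6, 0, 0), (8, 4, 0)] ?_ (by decide +kernel)
  intro t ht
  simp only [List.mem_cons, List.not_mem_nil, or_false] at ht
  rcases ht with rfl | rfl | rfl | rfl
  · exact sp_f 7 _ _ (by decide) (by decide) (by decide)
  · exact sp_a _ (by decide)
  · exact sp_a _ (by decide)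
  · exact sp_f 4 _ _ (by decide) (by decide) (by decide)

lemma not_single {p : ℕ} {k : ZMod p} (h : Lev k ⊆ Exc k) : Lev k \ Exc k = ∅ ∧ ¬ SingleOrbit k := by
  have h1 : Lev k \ Exc k = ∅ := Set.sdiff_eq_empty.2 h
  refine ⟨h1, ?_⟩
  rintro ⟨t, ht⟩
  rw [h1] at ht
  have : t ∈ (∅ : Set (Tr p)) := by
    rw [ht]
    exact ⟨1, one_mem _, rfl⟩
  exact this

/-- **Theorem.** For `(p, k) = (3, 0), (5, 0), (5, 4), (7, 0), (7, 1), (11, 1)` the level set `M_k` is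
the union of the exceptional orbits in it, so its complement is not a single orbit; in particular the
assertion of the problem does not hold for all odd primes `p` and all `k` different from `2` and
`-2`. -/
theorem result :
    (¬ ∀ p : ℕ, p.Prime → Odd p → ∀ k : ZMod p, k ≠ 2 → k ≠ -2 → SingleOrbit k) ∧
    ((0 : ZMod 3) ≠ 2 ∧ (0 : ZMod 3) ≠ -2 ∧ Lev (0 : ZMod 3) \ Exc 0 = ∅) ∧
    ((0 : ZMod 5) ≠ 2 ∧ (0 : ZMod 5) ≠ -2 ∧ Lev (0 : ZMod 5) \ Exc 0 = ∅) ∧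
    ((4 : ZMod 5) ≠ 2 ∧ (4 : ZMod 5) ≠ -2 ∧ Lev (4 : ZMod 5) \ Exc 4 = ∅) ∧
    ((0 : ZMod 7) ≠ 2 ∧ (0 : ZMod 7) ≠ -2 ∧ Lev (0 : ZMod 7) \ Exc 0 = ∅) ∧
    ((1 : ZMod 7) ≠ 2 ∧ (1 : ZMod 7) ≠ -2 ∧ Lev (1 : ZMod 7) \ Exc 1 = ∅) ∧
    ((1 : ZMod 11) ≠ 2 ∧ (1 : ZMod 11) ≠ -2 ∧ Lev (1 : ZMod 11) \ Exc 1 = ∅) := by
  refine ⟨?_, ⟨by decide, by decide, (not_single c30).1⟩, ⟨by decide, by decide, (not_single c50).1⟩,
    ⟨by decide, by decide, (not_single c54).1⟩, ⟨by decide, by decide, (not_single c70).1⟩,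
    ⟨by decide, by decide, (not_single c71).1⟩, ⟨by decide, by decide, (not_single c111).1⟩⟩
  intro h
  exact (not_single c111).2 (h 11 (by norm_num) (by decide) 1 (by decide) (by decide))

end Pool.Agent.Results.MP_c86b5e_nt.SmallPrimes
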